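import Pool.Agent.H91.Discrete

set_option autoImplicit false

/-- On a reflexive real or complex Banach space every bounded, SOT-discrete group of operators of
the form (unimodular scalar) times identity plus finite rank is finite. -/
theorem Pool.Agent.Results.MP_80a07b_an.Finite.result
    (𝕜 : Type) [RCLike 𝕜] (X : Type) [NormedAddCommGroup X] [NormedSpace 𝕜 X] [CompleteSpace X]
    (hrefl : Function.Surjective (NormedSpace.inclusionInDoubleDual 𝕜 X))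
    (G : Subgroup (X →L[𝕜] X)ˣ)
    (hbdd : ∃ C : ℝ, ∀ g ∈ G, ‖g.val‖ ≤ C)
    (hfr : ∀ g ∈ G, ∃ (ε : 𝕜) (F : X →L[𝕜] X), ‖ε‖ = 1 ∧
      FiniteDimensional 𝕜 (LinearMap.range (F : X →ₗ[𝕜] X)) ∧
      g.val = ε • ContinuousLinearMap.id 𝕜 X + F)
    (hdisc : ∀ g ∈ G, ∃ (s : Finset X) (δ : ℝ), 0 < δ ∧ ∀ h ∈ G,
      (∀ x ∈ s, ‖h.val x - g.val x‖ < δ) → h = g) :
    (G : Set (X →L[𝕜] X)ˣ).Finite := by
  apply Pool.Agent.H91.Discrete.main _ G hbdd _ (hdisc 1 G.one_mem)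
  · intro φ
    obtain ⟨x, hx⟩ := hrefl φ
    exact ⟨x, fun f => by rw [← hx]; rfl⟩
  · intro g hg
    obtain ⟨ε, F, h1, h2, h3⟩ := hfr g hg
    obtain ⟨s, hs⟩ := (Submodule.fg_iff_finiteDimensional _).2 h2
    refine ⟨ε, h1, s, fun x => ?_⟩
    rw [hs, h3]
    exact ⟨x, by simp⟩
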